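/-
A compact Hausdorff space that is not set-self-Tietze.
-/
import Mathlib

set_option autoImplicit false

open Set Topology

namespace Pool.Agent.Results.MP_65e89e_gt.NotSetTietze

universe u

/-- `f` is an upper semi-continuous function on the subspace `A` of `X` with nonempty closed
values (its values outside `A` do not matter). -/
def UscOn {X : Type u} [TopologicalSpace X] (A : Set X) (f : X → Set X) : Prop :=
  (∀ a ∈ A, (f a).Nonempty ∧ IsClosed (f a)) ∧
    ∀ U : Set X, IsOpen U → IsOpen {a : A | f a ⊆ U}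

/-- `X` is set-self-Tietze. -/
def SetSelfTietze (X : Type u) [TopologicalSpace X] : Prop :=
  ∀ A : Set X, IsClosed A → ∀ f : X → Set X, UscOn A f →
    ∃ F : X → Set X, UscOn univ F ∧ ∀ a ∈ A, F a = f a

/-- the points `e_d` of the Cantor cube -/
noncomputable def e (d : ℝ) : ℝ → Bool := fun t => decide (t = d)

/-- the points `e_d` and the zero point -/
def A₀ : Set (ℝ → Bool) := {x | ∀ s t, x s = true → x t = true → s = t}

theorem e_mem (d : ℝ) : e d ∈ A₀ := by
  intro s t hs ht
  unfold e at hs ht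
  rw [decide_eq_true_eq] at hs ht
  rw [hs, ht]

theorem isClosed_A₀ : IsClosed A₀ := by
  have h : A₀ = ⋂ s, ⋂ t, {x : ℝ → Bool | x s = true → x t = true → s = t} := by
    ext x
    simp only [A₀, mem_ofPred_eq, mem_iInter]
  rw [h]
  refine isClosed_iInter fun s => isClosed_iInter fun t => ?_
  have h1 : {x : ℝ → Bool | x s = true → x t = true → s = t} =
      (fun x : ℝ → Bool => (x s, x t)) ⁻¹' {p | p.1 = true → p.2 = true → s = t} := rfl
  rw [h1]
  have hc : Continuous fun x : ℝ → Bool => (x s, x t) := by fun_prop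
  exact (isClosed_discrete _).preimage hc

/-- the space: the Cantor cube together with a disjoint copy of `A₀` -/
abbrev X : Type := (ℝ → Bool) ⊕ A₀

instance : CompactSpace A₀ := isCompact_iff_compactSpace.1 isClosed_A₀.isCompact

/-- the closed subset of the cube -/
def A : Set X := Sum.inl '' A₀

theorem isClosed_A : IsClosed A := IsClosedEmbedding.inl.isClosedMap _ isClosed_A₀

/-- the common projection to the cube -/
def pr : X → (ℝ → Bool) := Sum.elim id Subtype.val

theorem continuous_pr : Continuous pr := continuous_id.sumElim continuous_subtype_val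

open Classical in
/-- the set-valued map: the identification of `A` with the disjoint copy -/
noncomputable def f (x : X) : Set X := if h : pr x ∈ A₀ then {Sum.inr ⟨pr x, h⟩} else univ

theorem f_eq (x : X) (h : pr x ∈ A₀) : f x = {Sum.inr ⟨pr x, h⟩} := by
  unfold f
  rw [dif_pos h]

theorem pr_mem {a : X} (ha : a ∈ A) : pr a ∈ A₀ := by
  obtain ⟨x, hx, rfl⟩ := ha
  exact hx

theorem usc_f : UscOn A f := by
  constructor
  · intro a ha
    rw [f_eq a (pr_mem ha)]
    exact ⟨singleton_nonempty _, isClosed_singleton⟩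
  · intro U hU
    have hc : Continuous fun a : A => (Sum.inr ⟨pr a, pr_mem a.2⟩ : X) :=
      continuous_inr.comp ((continuous_pr.comp continuous_subtype_val).subtype_mk _)
    have h : {a : A | f a ⊆ U} = (fun a : A => (Sum.inr ⟨pr a, pr_mem a.2⟩ : X)) ⁻¹' U := by
      ext a
      rw [mem_ofPred_eq, f_eq a (pr_mem a.2), singleton_subset_iff]
      rfl
    rw [h]
    exact hU.preimage hc

/-- the isolated points of the disjoint copy -/
theorem isOpen_W (d : ℝ) : IsOpen ({Sum.inr ⟨e d, e_mem d⟩} : Set X) := by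
  have h : ({Sum.inr ⟨e d, e_mem d⟩} : Set X) = Sum.inr '' {x : A₀ | x.1 d = true} := by
    ext y
    constructor
    · rintro rfl
      exact ⟨⟨e d, e_mem d⟩, by simp [e], rfl⟩
    · rintro ⟨⟨x, hx⟩, hxd, rfl⟩
      have hxe : x = e d := by
        funext t
        unfold e
        by_cases ht : t = d
        · rw [ht]
          simpa using hxd
        · have h1 : x t = false := by
            by_contra hc
            exact ht (hx t d (by simpa using hc) hxd)
          rw [h1]
          simp [ht]
      subst hxe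
      rfl
  rw [h]
  apply isOpenMap_inr
  have hc : Continuous fun x : A₀ => x.1 d := (continuous_apply d).comp continuous_subtype_val
  exact (isOpen_discrete {true}).preimage hc

theorem not_tietze : ¬ SetSelfTietze X := by
  intro h
  obtain ⟨F, hF, hFf⟩ := h A isClosed_A f usc_f
  -- finite sets of coordinates
  have hI : ∀ d : ℝ, ∃ I : Finset ℝ, ∀ x : ℝ → Bool, (∀ t ∈ I, x t = e d t) →
      F (Sum.inl x) ⊆ {Sum.inr ⟨e d, e_mem d⟩} := by
    intro d
    have h1 := hF.2 _ (isOpen_W d)
    have h2 : IsOpen {x : X | F x ⊆ {Sum.inr ⟨e d, e_mem d⟩}} := by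
      have hc : Continuous fun x : X => (⟨x, mem_univ x⟩ : (univ : Set X)) := by fun_prop
      exact h1.preimage hc
    have h3 : IsOpen (Sum.inl ⁻¹' {x : X | F x ⊆ {Sum.inr ⟨e d, e_mem d⟩}} : Set (ℝ → Bool)) :=
      h2.preimage continuous_inl
    have h4 : e d ∈ (Sum.inl ⁻¹' {x : X | F x ⊆ {Sum.inr ⟨e d, e_mem d⟩}} : Set (ℝ → Bool)) := by
      change F (Sum.inl (e d)) ⊆ _
      rw [hFf _ ⟨e d, e_mem d, rfl⟩, f_eq (Sum.inl (e d)) (e_mem d)]
      exact Subset.rfl
    obtain ⟨I, u, hu, hIu⟩ := isOpen_pi_iff.1 h3 _ h4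
    refine ⟨I, fun x hx => ?_⟩
    apply hIu
    intro t ht
    rw [hx t ht]
    exact (hu t ht).2
  choose I hI using hI
  -- two points none of which is in the set of the other
  have h1 : ((⋃ n : ℕ, ((I (n : ℝ) : Finset ℝ) : Set ℝ)) ∪ range (fun n : ℕ => (n : ℝ))).Countable :=
    (countable_iUnion fun n : ℕ => (I (n : ℝ)).countable_toSet).union (countable_range _)
  obtain ⟨d', hd'⟩ : ∃ d', d' ∉ (⋃ n : ℕ, ((I (n : ℝ) : Finset ℝ) : Set ℝ)) ∪
      range (fun n : ℕ => (n : ℝ)) := by
    by_contra hc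
    push Not at hc
    rw [← eq_univ_iff_forall] at hc
    rw [hc] at h1
    exact not_countable_univ h1
  have h2 : ((fun n : ℕ => (n : ℝ)) ⁻¹' (I d' : Set ℝ)).Finite :=
    (I d').finite_toSet.preimage Nat.cast_injective.injOn
  obtain ⟨n, hn⟩ := h2.exists_notMem
  have hdn : d' ∉ I (n : ℝ) := fun h => hd' (Or.inl (mem_iUnion.2 ⟨n, h⟩))
  have hne : d' ≠ (n : ℝ) := fun h => hd' (Or.inr ⟨n, h.symm⟩)
  have hnd : (n : ℝ) ∉ I d' := hn
  let x : ℝ → Bool := fun t => decide (t = (n : ℝ) ∨ t = d')
  have hx1 := hI (n : ℝ) x (fun t ht => by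
    have : t ≠ d' := fun h => hdn (h ▸ ht)
    simp [x, e, this])
  have hx2 := hI d' x (fun t ht => by
    have : t ≠ (n : ℝ) := fun h => hnd (h ▸ ht)
    simp [x, e, this])
  obtain ⟨y, hy⟩ := (hF.1 (Sum.inl x) (mem_univ _)).1
  have h3 := hx1 hy
  have h4 := hx2 hy
  rw [mem_singleton_iff] at h3 h4
  rw [h3] at h4
  have h5 := congrFun (congrArg Subtype.val (Sum.inr_injective h4)) d'
  simp [e, hne] at h5

/-- **Main theorem.** There is a compact Hausdorff space that is not set-self-Tietze. -/
theorem result : ∃ (X : Type) (_ : TopologicalSpace X), CompactSpace X ∧ T2Space X ∧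
    ¬ SetSelfTietze X := ⟨X, inferInstance, inferInstance, inferInstance, not_tietze⟩

end Pool.Agent.Results.MP_65e89e_gt.NotSetTietze
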